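import Mathlib

/-!
Definitions for the counterexample to the sign of the integrated Lagrangian of exterior Helmholtz
fields in dimension three.
-/

open scoped ContDiff Topology
open Filter

namespace Pool.Agent.W_MP_871f9b_an

/-- Euclidean three-space. -/
abbrev E3 := EuclideanSpace ℝ (Fin 3)

/-- The squared length `|∇u|² = ∑ i, |∂ᵢ u|²` of the gradient of a complex-valued function. -/
noncomputable def gradSq (u : E3 → ℂ) (x : E3) : ℝ :=
  ∑ i : Fin 3, ‖fderiv ℝ u x (EuclideanSpace.single i 1)‖ ^ 2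

/-- `F` is a smooth local defining function of `V` near `x`: near `x`, the set `V` is
`{F ≤ 0}`, `F` is smooth, and the differential of `F` at `x` is nonzero. -/
def IsDefiningFunctionAt (V : Set E3) (x : E3) (F : E3 → ℝ) : Prop :=
  ∃ U ∈ 𝓝 x, ContDiffOn ℝ ∞ F U ∧ (∀ y ∈ U, (y ∈ V ↔ F y ≤ 0)) ∧ fderiv ℝ F x ≠ 0

/-- `V` has smooth boundary: every boundary point has a smooth local defining function. -/
def HasSmoothBoundary (V : Set E3) : Prop :=
  ∀ x ∈ frontier V, ∃ F : E3 → ℝ, IsDefiningFunctionAt V x F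

/-- `ν` is the unit normal of `V` at `x` pointing out of `V`: it is a unit vector and a positive
multiple of the gradient at `x` of a smooth local defining function. -/
def IsOuterUnitNormal (V : Set E3) (x ν : E3) : Prop :=
  ‖ν‖ = 1 ∧ ∃ F : E3 → ℝ, IsDefiningFunctionAt V x F ∧
    ∃ c : ℝ, 0 < c ∧ ∀ v : E3, fderiv ℝ F x v = c * inner ℝ ν v

/-- The outgoing radiation condition for unit wavenumber in dimension three:
`u(x) ∼ (e^{ir} / r) f(x / r)` as `r = |x| → ∞` (uniformly in the direction) for a smooth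
function `f`, together with Sommerfeld's condition `r (∂_r u - i u) → 0`. -/
def IsRadiating (u : E3 → ℂ) : Prop :=
  (∃ f : E3 → ℂ, ContDiff ℝ ∞ f ∧
    Tendsto (fun x : E3 => (‖x‖ : ℂ) * Complex.exp (-(Complex.I * (‖x‖ : ℂ))) * u x
      - f (‖x‖⁻¹ • x)) (cocompact E3) (𝓝 0)) ∧
  Tendsto (fun x : E3 => (‖x‖ : ℂ) * (fderiv ℝ u x (‖x‖⁻¹ • x) - Complex.I * u x))
    (cocompact E3) (𝓝 0)

end Pool.Agent.W_MP_871f9b_an
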