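import Pool.Agent.W_MP_871f9b_an.Defs

/-!
The dipole field `u = ∂_z (e^{ir}/r)` and its elementary properties.
-/

open scoped ContDiff Topology Laplacian
open Filter Complex

namespace Pool.Agent.W_MP_871f9b_an

/-- radial profile -/
noncomputable def phi (r : ℝ) : ℂ := exp (I * r) * (I * r - 1) / (r : ℂ) ^ 3

/-- `phi' / r` -/
noncomputable def psi (r : ℝ) : ℂ := exp (I * r) * (3 - 3 * I * r - (r : ℂ) ^ 2) / (r : ℂ) ^ 5

/-- `psi'` -/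
noncomputable def chi (r : ℝ) : ℂ :=
  exp (I * r) * (-15 + 15 * I * r + 6 * (r : ℂ) ^ 2 - I * (r : ℂ) ^ 3) / (r : ℂ) ^ 6

/-- The dipole field. -/
noncomputable def dipole (x : E3) : ℂ := (x 2 : ℂ) * phi ‖x‖

lemma hasDerivAt_coe (r : ℝ) : HasDerivAt (fun r : ℝ => (r : ℂ)) 1 r := by
  have := (hasDerivAt_id r).ofReal_comp
  simpa using this

lemma hasDerivAt_exp (r : ℝ) : HasDerivAt (fun r : ℝ => exp (I * r)) (I * exp (I * r)) r := by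
  have h : HasDerivAt (fun r : ℝ => I * (r : ℂ)) I r := by
    simpa using (hasDerivAt_coe r).const_mul I
  have := h.cexp
  rw [mul_comm] at this
  exact this

lemma hasDerivAt_phi {r : ℝ} (hr : r ≠ 0) : HasDerivAt phi (r * psi r) r := by
  have hr' : (r : ℂ) ≠ 0 := by exact_mod_cast hr
  have hid := hasDerivAt_coe r
  have h1 := hasDerivAt_exp r
  have h2 : HasDerivAt (fun r : ℝ => I * (r : ℂ) - 1) I r := by
    simpa using (hid.const_mul I).sub_const 1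
  have h3 : HasDerivAt (fun r : ℝ => (r : ℂ) ^ 3) (3 * (r : ℂ) ^ 2) r := by
    simpa using hid.fun_pow 3
  have h4 := (h1.mul h2).div h3 (pow_ne_zero 3 hr')
  refine h4.congr_deriv ?_
  unfold psi
  simp only [Pi.mul_apply]
  field_simp
  ring_nf
  simp only [I_sq]
  ring

lemma hasDerivAt_psi {r : ℝ} (hr : r ≠ 0) : HasDerivAt psi (chi r) r := by
  have hr' : (r : ℂ) ≠ 0 := by exact_mod_cast hr
  have hid := hasDerivAt_coe r
  have h1 := hasDerivAt_exp r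
  have h2 : HasDerivAt (fun r : ℝ => 3 - 3 * I * (r : ℂ) - (r : ℂ) ^ 2) (-(3 * I) - 2 * r) r := by
    have := ((hid.const_mul (3 * I)).const_sub 3).fun_sub (hid.fun_pow 2)
    simpa using this
  have h3 : HasDerivAt (fun r : ℝ => (r : ℂ) ^ 5) (5 * (r : ℂ) ^ 4) r := by
    simpa using hid.fun_pow 5
  have h4 := (h1.mul h2).div h3 (pow_ne_zero 5 hr')
  refine h4.congr_deriv ?_
  unfold chi
  simp only [Pi.mul_apply]
  field_simp
  ring_nf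
  simp only [I_sq]
  ring

lemma hasFDerivAt_norm' {x : E3} (hx : x ≠ 0) :
    HasFDerivAt (fun y : E3 => ‖y‖) (‖x‖⁻¹ • innerSL ℝ x) x := by
  have h := (hasStrictFDerivAt_norm_sq x).hasFDerivAt
  have hx' : ‖x‖ ^ 2 ≠ 0 := pow_ne_zero 2 (norm_ne_zero_iff.2 hx)
  have h2 := h.sqrt hx'
  have e : (fun y : E3 => √(‖y‖ ^ 2)) = fun y : E3 => ‖y‖ := by
    funext y
    exact Real.sqrt_sq (norm_nonneg y)
  rw [e] at h2
  refine h2.congr_fderiv ?_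
  rw [Real.sqrt_sq (norm_nonneg x)]
  ext v
  simp
  field_simp

/-- chain rule for radial functions -/
lemma hasFDerivAt_radial {G : ℝ → ℂ} {G' : ℂ} {x : E3} (hx : x ≠ 0)
    (hG : HasDerivAt G G' ‖x‖) :
    HasFDerivAt (fun y : E3 => G ‖y‖) ((‖x‖⁻¹ • innerSL ℝ x).smulRight G') x := by
  have := hG.hasFDerivAt.comp x (hasFDerivAt_norm' hx)
  refine this.congr_fderiv ?_
  ext v
  simp
  ring

/-- the coordinate functional, complex valued -/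
noncomputable def coordC (i : Fin 3) : E3 →L[ℝ] ℂ :=
  Complex.ofRealCLM.comp (EuclideanSpace.proj i)

lemma coordC_apply (i : Fin 3) (x : E3) : coordC i x = (x i : ℂ) := rfl

/-- The differential of the dipole field. -/
noncomputable def dipoleD (x : E3) : E3 →L[ℝ] ℂ :=
  (x 2 : ℂ) • (innerSL ℝ x).smulRight (psi ‖x‖) + phi ‖x‖ • coordC 2

lemma dipoleD_apply (x v : E3) :
    dipoleD x v = (x 2 : ℂ) * ((inner ℝ x v : ℝ) : ℂ) * psi ‖x‖ + phi ‖x‖ * (v 2 : ℂ) := by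
  simp [dipoleD, coordC_apply]
  ring

lemma hasFDerivAt_dipole {x : E3} (hx : x ≠ 0) : HasFDerivAt dipole (dipoleD x) x := by
  have hr : ‖x‖ ≠ 0 := norm_ne_zero_iff.2 hx
  have h1 := hasFDerivAt_radial hx (hasDerivAt_phi hr)
  have h2 : HasFDerivAt (fun y : E3 => (y 2 : ℂ)) (coordC 2) x := (coordC 2).hasFDerivAt
  have h3 := h2.mul h1
  refine h3.congr_fderiv ?_
  ext v
  rw [dipoleD_apply]
  have hr' : (‖x‖ : ℂ) ≠ 0 := by exact_mod_cast hr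
  simp [coordC_apply]
  field_simp

lemma contDiff_coe : ContDiff ℝ ∞ (fun r : ℝ => (r : ℂ)) := Complex.ofRealCLM.contDiff

lemma contDiffAt_phi {r : ℝ} (hr : r ≠ 0) : ContDiffAt ℝ ∞ phi r := by
  have hr' : (r : ℂ) ^ 3 ≠ 0 := pow_ne_zero 3 (by exact_mod_cast hr)
  unfold phi
  have h0 : ContDiffAt ℝ ∞ (fun r : ℝ => (r : ℂ)) r := contDiff_coe.contDiffAt
  have h1 : ContDiffAt ℝ ∞ (fun r : ℝ => I * (r : ℂ)) r := contDiffAt_const.mul h0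
  have h2 : ContDiffAt ℝ ∞ (fun r : ℝ => exp (I * (r : ℂ))) r := h1.cexp
  have h3 : ContDiffAt ℝ ∞ (fun r : ℝ => ((r : ℂ) ^ 3)⁻¹) r := (h0.pow 3).inv hr'
  have h4 := (h2.mul (h1.sub (contDiffAt_const (c := (1 : ℂ))))).mul h3
  simpa only [div_eq_mul_inv] using h4

lemma contDiffAt_dipole {x : E3} (hx : x ≠ 0) : ContDiffAt ℝ ∞ dipole x := by
  have hr : ‖x‖ ≠ 0 := norm_ne_zero_iff.2 hx
  have h1 : ContDiffAt ℝ ∞ (fun y : E3 => phi ‖y‖) x := (contDiffAt_phi hr).comp x (contDiffAt_norm ℝ hx)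
  have h2 : ContDiffAt ℝ ∞ (fun y : E3 => (y 2 : ℂ)) x := (coordC 2).contDiff.contDiffAt
  exact h2.mul h1

lemma fderiv_dipole {x : E3} (hx : x ≠ 0) : fderiv ℝ dipole x = dipoleD x :=
  (hasFDerivAt_dipole hx).fderiv

lemma fderiv_fderiv_dipole {x : E3} (hx : x ≠ 0) (v : E3) :
    fderiv ℝ (fderiv ℝ dipole) x v v =
      2 * ((v 2 : ℂ) * ((inner ℝ x v : ℝ) : ℂ) * psi ‖x‖)
      + (x 2 : ℂ) * ((inner ℝ v v : ℝ) : ℂ) * psi ‖x‖
      + (x 2 : ℂ) * ((inner ℝ x v : ℝ) : ℂ) ^ 2 * chi ‖x‖ / (‖x‖ : ℂ) := by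
  have hr : ‖x‖ ≠ 0 := norm_ne_zero_iff.2 hx
  have hr' : (‖x‖ : ℂ) ≠ 0 := by exact_mod_cast hr
  have hd : DifferentiableAt ℝ (fderiv ℝ dipole) x := by
    have h2 : ContDiffAt ℝ 2 dipole x := (contDiffAt_dipole hx).of_le ENat.LEInfty.out
    have := h2.fderiv_right (m := 1) (by norm_num)
    exact this.differentiableAt (by norm_num)
  have h1 := hd.hasFDerivAt.clm_apply (hasFDerivAt_const v x)
  have e1 : fderiv ℝ (fderiv ℝ dipole) x v v = fderiv ℝ (fun y => fderiv ℝ dipole y v) x v := by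
    rw [h1.fderiv]
    simp
  rw [e1]
  have e2 : (fun y => fderiv ℝ dipole y v) =ᶠ[𝓝 x]
      fun y => (y 2 : ℂ) * ((inner ℝ y v : ℝ) : ℂ) * psi ‖y‖ + phi ‖y‖ * (v 2 : ℂ) := by
    filter_upwards [isOpen_ne.mem_nhds hx] with y hy
    rw [fderiv_dipole hy, dipoleD_apply]
  rw [e2.fderiv_eq]
  have k1 : HasFDerivAt (fun y : E3 => (y 2 : ℂ)) (coordC 2) x := (coordC 2).hasFDerivAt
  have k2 : HasFDerivAt (fun y : E3 => ((inner ℝ y v : ℝ) : ℂ))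
      (Complex.ofRealCLM.comp (innerSL ℝ v)) x := by
    have := (Complex.ofRealCLM.comp (innerSL ℝ v)).hasFDerivAt (x := x)
    refine this.congr_of_eventuallyEq ?_
    filter_upwards with y
    simp [real_inner_comm]
  have k3 := hasFDerivAt_radial hx (hasDerivAt_psi hr)
  have k4 := hasFDerivAt_radial hx (hasDerivAt_phi hr)
  have k5 := ((k1.mul k2).mul k3).add (k4.mul_const (v 2 : ℂ))
  have e3 := k5.fderiv
  have e4 := congrArg (fun L : E3 →L[ℝ] ℂ => L v) e3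
  refine Eq.trans e4 ?_
  simp [coordC_apply]
  field_simp
  ring

lemma laplacian_dipole {x : E3} (hx : x ≠ 0) : (Δ dipole) x = - dipole x := by
  have hr : ‖x‖ ≠ 0 := norm_ne_zero_iff.2 hx
  have hr' : (‖x‖ : ℂ) ≠ 0 := by exact_mod_cast hr
  rw [InnerProductSpace.laplacian_eq_iteratedFDeriv_orthonormalBasis dipole
    (EuclideanSpace.basisFun (Fin 3) ℝ)]
  simp only [iteratedFDeriv_two_apply, Matrix.cons_val_zero, Matrix.cons_val_one,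
    fderiv_fderiv_dipole hx, Fin.sum_univ_three, EuclideanSpace.basisFun_apply]
  have hn : (‖x‖ : ℂ) ^ 2 = (x 0 : ℂ) ^ 2 + (x 1 : ℂ) ^ 2 + (x 2 : ℂ) ^ 2 := by
    have := EuclideanSpace.real_norm_sq_eq x
    rw [Fin.sum_univ_three] at this
    exact_mod_cast this
  simp [EuclideanSpace.inner_single_right]
  unfold dipole phi psi chi
  field_simp
  have hI : I ^ 2 = -1 := I_sq
  linear_combination (-(x 2 : ℂ) * (15 * (-1 + I * ‖x‖) + (‖x‖ : ℂ) ^ 2 * 6 - I * (‖x‖ : ℂ) ^ 3)) * hn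

lemma norm_exp_I (r : ℝ) : ‖exp (I * r)‖ = 1 := by
  rw [mul_comm]; exact norm_exp_ofReal_mul_I r

lemma normSq_exp_I (r : ℝ) : normSq (exp (I * r)) = 1 := by
  rw [Complex.normSq_eq_norm_sq, norm_exp_I]; norm_num

lemma norm_sq_dipole {x : E3} (hx : x ≠ 0) :
    ‖dipole x‖ ^ 2 = (x 2) ^ 2 * (‖x‖ ^ 2 + 1) / ‖x‖ ^ 6 := by
  have hr : ‖x‖ ≠ 0 := norm_ne_zero_iff.2 hx
  rw [← Complex.normSq_eq_norm_sq]
  unfold dipole phi
  have e : I * (‖x‖ : ℂ) - 1 = ((-1 : ℝ) : ℂ) + ((‖x‖ : ℝ) : ℂ) * I := by push_cast; ring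
  rw [map_mul, map_div₀, map_mul, map_pow, normSq_exp_I, Complex.normSq_ofReal,
    Complex.normSq_ofReal, e, Complex.normSq_add_mul_I]
  field_simp
  ring

lemma norm_sq_fderiv_dipole {x : E3} (hx : x ≠ 0) (v : E3) :
    ‖fderiv ℝ dipole x v‖ ^ 2 =
      (x 2 * inner ℝ x v) ^ 2 * (9 + 3 * ‖x‖ ^ 2 + ‖x‖ ^ 4) / ‖x‖ ^ 10
      + 2 * (x 2 * inner ℝ x v) * v 2 * (- 3 - 2 * ‖x‖ ^ 2) / ‖x‖ ^ 8
      + (v 2) ^ 2 * (‖x‖ ^ 2 + 1) / ‖x‖ ^ 6 := by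
  have hr : ‖x‖ ≠ 0 := norm_ne_zero_iff.2 hx
  have hr' : (‖x‖ : ℂ) ≠ 0 := by exact_mod_cast hr
  rw [fderiv_dipole hx, dipoleD_apply, ← Complex.normSq_eq_norm_sq]
  generalize (inner ℝ x v : ℝ) = s
  have e : (x 2 : ℂ) * (s : ℂ) * psi ‖x‖ + phi ‖x‖ * (v 2 : ℂ) =
      exp (I * ‖x‖) * ((((x 2 * s * (3 - ‖x‖ ^ 2) - ‖x‖ ^ 2 * v 2 : ℝ)) : ℂ)
        + ((x 2 * s * (-3 * ‖x‖) + ‖x‖ ^ 3 * v 2 : ℝ) : ℂ) * I) / (‖x‖ : ℂ) ^ 5 := by
    unfold psi phi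
    push_cast
    field_simp
    ring
  rw [e, map_div₀, map_mul, map_pow, normSq_exp_I, Complex.normSq_add_mul_I,
    Complex.normSq_ofReal]
  field_simp
  ring

lemma gradSq_dipole {x : E3} (hx : x ≠ 0) :
    gradSq dipole x = (‖x‖ ^ 2 + 1) / ‖x‖ ^ 6
      + (x 2) ^ 2 * (‖x‖ ^ 4 - ‖x‖ ^ 2 + 3) / ‖x‖ ^ 8 := by
  have hr : ‖x‖ ≠ 0 := norm_ne_zero_iff.2 hx
  unfold gradSq
  simp only [norm_sq_fderiv_dipole hx, Fin.sum_univ_three]
  have hn : ‖x‖ ^ 2 = (x 0) ^ 2 + (x 1) ^ 2 + (x 2) ^ 2 := by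
    have := EuclideanSpace.real_norm_sq_eq x
    rw [Fin.sum_univ_three] at this
    exact this
  simp [EuclideanSpace.inner_single_right]
  field_simp
  linear_combination (-(x 2) ^ 2 * (9 + 3 * ‖x‖ ^ 2 + ‖x‖ ^ 4)) * hn

/-- The Lagrangian density of the dipole field. -/
lemma density_dipole {x : E3} (hx : x ≠ 0) :
    ‖dipole x‖ ^ 2 - gradSq dipole x =
      (2 * (x 2) ^ 2 - ‖x‖ ^ 2) / ‖x‖ ^ 6 - (‖x‖ ^ 2 + 3 * (x 2) ^ 2) / ‖x‖ ^ 8 := by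
  have hr : ‖x‖ ≠ 0 := norm_ne_zero_iff.2 hx
  rw [norm_sq_dipole hx, gradSq_dipole hx]
  field_simp
  ring

end Pool.Agent.W_MP_871f9b_an
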