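import Pool.Agent.W_MP_871f9b_an.Field

/-!
The radiation condition for the dipole field and the geometry of the obstacle.
-/

open scoped ContDiff Topology Laplacian
open Filter Complex

namespace Pool.Agent.W_MP_871f9b_an

lemma abs_coord_le (x : E3) (i : Fin 3) : |x i| ≤ ‖x‖ := by
  have := EuclideanSpace.norm_eq x
  rw [this, ← Real.sqrt_sq_eq_abs]
  apply Real.sqrt_le_sqrt
  have h : ‖x i‖ ^ 2 = x i ^ 2 := by rw [Real.norm_eq_abs, sq_abs]
  rw [← h]
  exact Finset.single_le_sum (f := fun i => ‖x i‖ ^ 2) (fun j _ => sq_nonneg _) (Finset.mem_univ i)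

lemma isRadiating_dipole : IsRadiating dipole := by
  have hatTop : Tendsto (fun x : E3 => ‖x‖) (cocompact E3) atTop := tendsto_norm_cocompact_atTop
  refine ⟨⟨fun y => I * coordC 2 y, contDiff_const.mul (coordC 2).contDiff, ?_⟩, ?_⟩
  · have hb : ∀ᶠ x : E3 in cocompact E3,
        ‖(‖x‖ : ℂ) * exp (-(I * (‖x‖ : ℂ))) * dipole x - I * coordC 2 (‖x‖⁻¹ • x)‖ ≤ ‖x‖⁻¹ := by
      filter_upwards [hatTop.eventually_gt_atTop 0] with x hx
      have hr' : (‖x‖ : ℂ) ≠ 0 := by exact_mod_cast hx.ne'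
      have e : (‖x‖ : ℂ) * exp (-(I * (‖x‖ : ℂ))) * dipole x - I * coordC 2 (‖x‖⁻¹ • x)
          = -((x 2 : ℝ) : ℂ) / (‖x‖ : ℂ) ^ 2 := by
        unfold dipole phi
        rw [coordC_apply, exp_neg]
        have : exp (I * (‖x‖ : ℂ)) ≠ 0 := exp_ne_zero _
        simp only [PiLp.smul_apply, smul_eq_mul]
        push_cast
        field_simp
        ring
      rw [e, norm_div, norm_neg, norm_pow, Complex.norm_real, Complex.norm_real, Real.norm_eq_abs,
        norm_norm, pow_two, ← div_div, div_le_iff₀ hx, inv_mul_cancel₀ hx.ne', div_le_one hx]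
      exact abs_coord_le x 2
    exact squeeze_zero_norm' hb hatTop.inv_tendsto_atTop
  · have hb : ∀ᶠ x : E3 in cocompact E3,
        ‖(‖x‖ : ℂ) * (fderiv ℝ dipole x (‖x‖⁻¹ • x) - I * dipole x)‖ ≤ 3 * ‖x‖⁻¹ := by
      filter_upwards [hatTop.eventually_ge_atTop 1] with x hx
      have hx0 : 0 < ‖x‖ := by linarith
      have hx1 : x ≠ 0 := norm_pos_iff.1 hx0
      have hr' : (‖x‖ : ℂ) ≠ 0 := by exact_mod_cast hx0.ne'
      have e : (‖x‖ : ℂ) * (fderiv ℝ dipole x (‖x‖⁻¹ • x) - I * dipole x)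
          = exp (I * ‖x‖) * (((x 2 : ℝ) : ℂ) / (‖x‖ : ℂ)) * (2 - I * ‖x‖) / (‖x‖ : ℂ) ^ 2 := by
        rw [fderiv_dipole hx1, dipoleD_apply]
        unfold dipole phi psi
        rw [inner_smul_right, real_inner_self_eq_norm_sq]
        simp only [PiLp.smul_apply, smul_eq_mul]
        push_cast
        field_simp
        ring_nf
        simp only [I_sq]
        ring
      rw [e, norm_div, norm_mul, norm_mul, norm_div, norm_exp_I, one_mul, norm_pow,
        Complex.norm_real, Complex.norm_real, Real.norm_eq_abs, norm_norm]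
      have h1 : |x 2| / ‖x‖ ≤ 1 := by
        rw [div_le_one hx0]; exact abs_coord_le x 2
      have h2 : ‖(2 - I * ‖x‖ : ℂ)‖ ≤ 3 * ‖x‖ := by
        calc ‖(2 - I * ‖x‖ : ℂ)‖ ≤ ‖(2 : ℂ)‖ + ‖I * (‖x‖ : ℂ)‖ := norm_sub_le _ _
          _ = 2 + ‖x‖ := by simp
          _ ≤ 3 * ‖x‖ := by linarith
      rw [div_le_iff₀ (by positivity)]
      calc |x 2| / ‖x‖ * ‖(2 - I * ‖x‖ : ℂ)‖ ≤ 1 * (3 * ‖x‖) := by
            apply mul_le_mul h1 h2 (norm_nonneg _) (by norm_num)
        _ = 3 * ‖x‖⁻¹ * ‖x‖ ^ 2 := by field_simp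
    refine squeeze_zero_norm' hb ?_
    simpa using hatTop.inv_tendsto_atTop.const_mul 3

/-- The obstacle. -/
def obstacle : Set E3 := {x | ‖x‖ ^ 2 + 10 * (x 2) ^ 2 ≤ 100 * ‖x‖}

lemma mem_obstacle (x : E3) : x ∈ obstacle ↔ ‖x‖ ^ 2 + 10 * (x 2) ^ 2 ≤ 100 * ‖x‖ := Iff.rfl

lemma continuous_coord (i : Fin 3) : Continuous fun x : E3 => x i :=
  (EuclideanSpace.proj (𝕜 := ℝ) i).continuous

lemma isClosed_obstacle : IsClosed obstacle := by
  apply isClosed_le
  · exact (continuous_norm.pow 2).add (continuous_const.mul ((continuous_coord 2).pow 2))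
  · exact continuous_const.mul continuous_norm

lemma norm_le_of_mem {x : E3} (hx : x ∈ obstacle) : ‖x‖ ≤ 100 := by
  rw [mem_obstacle] at hx
  by_contra h
  push Not at h
  nlinarith [sq_nonneg (x 2), norm_nonneg x]

lemma isCompact_obstacle : IsCompact obstacle := by
  apply Metric.isCompact_of_isClosed_isBounded isClosed_obstacle
  apply (Metric.isBounded_closedBall (x := (0 : E3)) (r := 100)).subset
  intro x hx
  rw [mem_closedBall_zero_iff]
  exact norm_le_of_mem hx

lemma coord_sq_le (x : E3) (i : Fin 3) : (x i) ^ 2 ≤ ‖x‖ ^ 2 :=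
  sq_le_sq' (by linarith [abs_le.1 (abs_coord_le x i)]) (le_trans (le_abs_self _) (abs_coord_le x i))

lemma ball_subset_obstacle : Metric.ball (0 : E3) 9 ⊆ obstacle := by
  intro x hx
  rw [mem_ball_zero_iff] at hx
  rw [mem_obstacle]
  nlinarith [coord_sq_le x 2, norm_nonneg x]

lemma zero_mem_interior : (0 : E3) ∈ interior obstacle :=
  mem_interior.2 ⟨_, ball_subset_obstacle, Metric.isOpen_ball, Metric.mem_ball_self (by norm_num)⟩

lemma ne_zero_of_mem_closure_compl {x : E3} (hx : x ∈ closure obstacleᶜ) : x ≠ 0 := by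
  rw [closure_compl] at hx
  rintro rfl
  exact hx zero_mem_interior

lemma starConvex_obstacle : StarConvex ℝ 0 obstacle := by
  rw [starConvex_zero_iff]
  intro x hx a ha0 ha1
  rw [mem_obstacle] at *
  rw [norm_smul, PiLp.smul_apply, smul_eq_mul, Real.norm_eq_abs, abs_of_nonneg ha0]
  have h1 : a ^ 2 * (‖x‖ ^ 2 + 10 * (x 2) ^ 2) ≤ a ^ 2 * (100 * ‖x‖) :=
    mul_le_mul_of_nonneg_left hx (sq_nonneg a)
  have h2 : a ^ 2 * (100 * ‖x‖) ≤ a * (100 * ‖x‖) := by
    apply mul_le_mul_of_nonneg_right _ (by positivity)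
    nlinarith
  nlinarith

lemma isConnected_compl_obstacle : IsConnected obstacleᶜ := by
  have hrank : 1 < Module.rank ℝ E3 := by
    rw [← Module.finrank_eq_rank]
    simp
  have hsph : IsConnected (Metric.sphere (0 : E3) 200) := isConnected_sphere hrank 0 (by norm_num)
  have hsub : Metric.sphere (0 : E3) 200 ⊆ obstacleᶜ := by
    intro x hx hx'
    rw [mem_sphere_zero_iff_norm] at hx
    have := norm_le_of_mem hx'
    linarith
  obtain ⟨x₀, hx₀⟩ := hsph.nonempty
  refine ⟨⟨x₀, hsub hx₀⟩, ?_⟩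
  apply isPreconnected_of_forall x₀
  intro y hy
  have hy0 : y ≠ 0 := fun h => ne_zero_of_mem_closure_compl (subset_closure hy) h
  have hyn : 0 < ‖y‖ := norm_pos_iff.2 hy0
  set z : E3 := (200 / ‖y‖) • y with hz
  have hzn : ‖z‖ = 200 := by
    rw [hz, norm_smul, Real.norm_eq_abs, abs_of_pos (by positivity)]
    field_simp
  have hyF : 100 * ‖y‖ < ‖y‖ ^ 2 + 10 * (y 2) ^ 2 := by
    by_contra h
    push Not at h
    exact hy h
  refine ⟨segment ℝ y z ∪ Metric.sphere (0 : E3) 200, ?_, Or.inr hx₀, Or.inl (left_mem_segment ℝ y z), ?_⟩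
  · apply Set.union_subset _ hsub
    intro w hw
    obtain ⟨a, b, ha, hb, hab, rfl⟩ := hw
    -- w = c • y with c = a + b * 200 / ‖y‖
    have hw : a • y + b • z = (a + b * (200 / ‖y‖)) • y := by
      rw [hz, smul_smul, ← add_smul]
    rw [hw]
    intro hmem
    rw [mem_obstacle, norm_smul, PiLp.smul_apply, smul_eq_mul, Real.norm_eq_abs] at hmem
    have hc : 0 < a + b * (200 / ‖y‖) := by
      rcases ha.eq_or_lt with h | h
      · have : b = 1 := by linarith
        rw [this, ← h]; positivity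
      · positivity
    rw [abs_of_pos hc] at hmem
    set c := a + b * (200 / ‖y‖) with hcdef
    have h3 : c * (‖y‖ ^ 2 + 10 * (y 2) ^ 2) ≤ 100 * ‖y‖ := by
      have : c * (c * (‖y‖ ^ 2 + 10 * (y 2) ^ 2)) ≤ c * (100 * ‖y‖) := by nlinarith
      exact le_of_mul_le_mul_left this hc
    have h4 : c * ‖y‖ = a * ‖y‖ + b * 200 := by
      rw [hcdef]; field_simp
    -- c * q with q = ‖y‖^2 + 10 y2^2 > 100 ‖y‖, q ≥ ‖y‖^2
    have h5 : a * (‖y‖ ^ 2 + 10 * (y 2) ^ 2) + b * (200 / ‖y‖) * (‖y‖ ^ 2 + 10 * (y 2) ^ 2)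
        ≤ 100 * ‖y‖ := by
      rw [← add_mul]; exact h3
    have h6 : 200 * ‖y‖ ≤ (200 / ‖y‖) * (‖y‖ ^ 2 + 10 * (y 2) ^ 2) := by
      rw [div_mul_eq_mul_div, le_div_iff₀ hyn]
      nlinarith [sq_nonneg (y 2)]
    have h7 : b * (200 * ‖y‖) ≤ b * ((200 / ‖y‖) * (‖y‖ ^ 2 + 10 * (y 2) ^ 2)) :=
      mul_le_mul_of_nonneg_left h6 hb
    have h8 : a * (100 * ‖y‖) ≤ a * (‖y‖ ^ 2 + 10 * (y 2) ^ 2) :=
      mul_le_mul_of_nonneg_left hyF.le ha
    have h9 : a * (100 * ‖y‖) + b * (200 * ‖y‖) ≤ 100 * ‖y‖ := by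
      have : b * (200 / ‖y‖) * (‖y‖ ^ 2 + 10 * (y 2) ^ 2) =
        b * ((200 / ‖y‖) * (‖y‖ ^ 2 + 10 * (y 2) ^ 2)) := by ring
      linarith
    rcases hb.eq_or_lt with h | h
    · have ha1 : a = 1 := by linarith
      rw [← h, ha1] at h5
      simp only [one_mul, zero_mul, add_zero] at h5
      linarith
    · nlinarith
  · apply IsPreconnected.union z
    · exact right_mem_segment ℝ y z
    · rw [mem_sphere_zero_iff_norm]; exact hzn
    · exact (convex_segment y z).isPreconnected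
    · exact hsph.isPreconnected

lemma proj_two_apply (x : E3) : (EuclideanSpace.proj (𝕜 := ℝ) (2 : Fin 3)) x = x 2 := rfl

/-- the defining function of the obstacle -/
noncomputable def defF (x : E3) : ℝ := ‖x‖ ^ 2 + 10 * (x 2) ^ 2 - 100 * ‖x‖

lemma contDiffOn_defF : ContDiffOn ℝ ∞ defF {0}ᶜ := by
  intro x hx
  have hx' : x ≠ 0 := hx
  have h0 : ContDiffAt ℝ ∞ (fun y : E3 => ‖y‖) x := contDiffAt_norm ℝ hx'
  have h1 : ContDiffAt ℝ ∞ (fun y : E3 => y 2) x :=
    (EuclideanSpace.proj (𝕜 := ℝ) (2 : Fin 3)).contDiff.contDiffAt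
  have h2 : ContDiffAt ℝ ∞ (fun y : E3 => ‖y‖ ^ 2 + 10 * (y 2) ^ 2 - 100 * ‖y‖) x :=
    ((h0.pow 2).add ((contDiffAt_const (c := (10 : ℝ))).mul (h1.pow 2))).sub
      ((contDiffAt_const (c := (100 : ℝ))).mul h0)
  exact h2.contDiffWithinAt

lemma hasFDerivAt_defF {x : E3} (hx : x ≠ 0) :
    HasFDerivAt defF ((2 - 100 * ‖x‖⁻¹) • innerSL ℝ x
      + (20 * x 2) • EuclideanSpace.proj (𝕜 := ℝ) (2 : Fin 3)) x := by
  have h1 := (hasStrictFDerivAt_norm_sq x).hasFDerivAt
  have h2 : HasFDerivAt (fun y : E3 => y 2) (EuclideanSpace.proj (𝕜 := ℝ) (2 : Fin 3)) x :=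
    (EuclideanSpace.proj (𝕜 := ℝ) (2 : Fin 3)).hasFDerivAt
  have h3 := hasFDerivAt_norm' hx
  have h4 := (h1.add ((h2.pow 2).const_mul 10)).sub (h3.const_mul 100)
  refine h4.congr_fderiv ?_
  ext v
  simp
  ring

lemma defF_eq_zero_of_mem_frontier {x : E3} (hx : x ∈ frontier obstacle) : defF x = 0 := by
  have hx0 : x ≠ 0 := by
    rintro rfl
    exact hx.2 zero_mem_interior
  have h1 : defF x ≤ 0 := by
    have : x ∈ obstacle := isClosed_obstacle.frontier_subset hx
    rw [mem_obstacle] at this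
    unfold defF; linarith
  by_contra h
  have h2 : defF x < 0 := lt_of_le_of_ne h1 h
  apply hx.2
  have hc : ContinuousAt defF x :=
    (contDiffOn_defF.contDiffAt (isOpen_compl_singleton.mem_nhds hx0)).continuousAt
  rw [mem_interior_iff_mem_nhds]
  filter_upwards [hc.eventually_lt continuousAt_const h2] with y hy
  rw [mem_obstacle]
  unfold defF at hy
  linarith

lemma isDefiningFunctionAt_defF {x : E3} (hx : x ∈ frontier obstacle) :
    IsDefiningFunctionAt obstacle x defF := by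
  have hx0 : x ≠ 0 := by
    rintro rfl
    exact hx.2 zero_mem_interior
  refine ⟨{0}ᶜ, isOpen_compl_singleton.mem_nhds hx0, contDiffOn_defF, ?_, ?_⟩
  · intro y _
    rw [mem_obstacle]
    unfold defF
    constructor <;> intro h <;> linarith
  · rw [(hasFDerivAt_defF hx0).fderiv]
    intro h
    have h2 := congrArg (fun L : E3 →L[ℝ] ℝ => L x) h
    have h3 := defF_eq_zero_of_mem_frontier hx
    have hn : 0 < ‖x‖ := norm_pos_iff.2 hx0
    simp only [_root_.add_apply, _root_.smul_apply,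
      _root_.zero_apply, smul_eq_mul, innerSL_apply_apply,
      real_inner_self_eq_norm_sq, proj_two_apply] at h2
    unfold defF at h3
    field_simp at h2
    nlinarith

lemma hasSmoothBoundary_obstacle : HasSmoothBoundary obstacle :=
  fun _ hx => ⟨defF, isDefiningFunctionAt_defF hx⟩

/-- the north pole of the obstacle -/
noncomputable def pole : E3 := EuclideanSpace.single 2 (100 / 11)

lemma norm_pole : ‖pole‖ = 100 / 11 := by
  unfold pole
  rw [PiLp.norm_single, Real.norm_eq_abs, abs_of_pos (by norm_num)]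

lemma pole_two : pole 2 = 100 / 11 := by
  unfold pole; simp

lemma pole_ne_zero : pole ≠ 0 := by
  rw [← norm_pos_iff, norm_pole]; norm_num

lemma defF_smul_pole (c : ℝ) (hc : 0 ≤ c) : defF (c • pole) = 100 * (100 / 11) * (c ^ 2 - c) := by
  unfold defF
  rw [norm_smul, PiLp.smul_apply, smul_eq_mul, norm_pole, pole_two, Real.norm_eq_abs,
    abs_of_nonneg hc]
  ring

lemma pole_mem_frontier : pole ∈ frontier obstacle := by
  have h0 := defF_smul_pole 1 (by norm_num)
  rw [one_smul] at h0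
  refine ⟨subset_closure ?_, ?_⟩
  · rw [mem_obstacle]
    unfold defF at h0
    linarith
  · intro h
    rw [mem_interior_iff_mem_nhds] at h
    have hc : Tendsto (fun c : ℝ => c • pole) (𝓝[>] 1) (𝓝 pole) := by
      have : Tendsto (fun c : ℝ => c • pole) (𝓝 1) (𝓝 ((1 : ℝ) • pole)) :=
        tendsto_id.smul_const _
      rw [one_smul] at this
      exact this.mono_left nhdsWithin_le_nhds
    have h2 := hc.eventually h
    have h3 : ∀ᶠ c : ℝ in 𝓝[>] 1, (1 : ℝ) < c := eventually_mem_nhdsWithin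
    obtain ⟨c, hc1, hc2⟩ := (h2.and h3).exists
    have h4 := defF_smul_pole c (by linarith)
    have h5 : defF (c • pole) ≤ 0 := by
      have : c • pole ∈ obstacle := hc1
      rw [mem_obstacle] at this
      unfold defF; linarith
    rw [h4] at h5
    nlinarith

lemma dipole_pole_ne_zero : dipole pole ≠ 0 := by
  have h := norm_sq_dipole pole_ne_zero
  rw [norm_pole, pole_two] at h
  intro h0
  rw [h0] at h
  norm_num at h

lemma isOuterUnitNormal_pole : IsOuterUnitNormal obstacle pole (EuclideanSpace.single 2 1) := by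
  refine ⟨by simp, defF, isDefiningFunctionAt_defF pole_mem_frontier, 100, by norm_num, ?_⟩
  intro v
  rw [(hasFDerivAt_defF pole_ne_zero).fderiv]
  simp only [_root_.add_apply, _root_.smul_apply,
      smul_eq_mul, innerSL_apply_apply, proj_two_apply, norm_pole, pole_two]
  have e1 : inner ℝ pole v = (100 / 11) * v 2 := by
    unfold pole
    rw [EuclideanSpace.inner_single_left]
    simp
  have e2 : inner ℝ (EuclideanSpace.single (2 : Fin 3) (1 : ℝ)) v = v 2 := by
    rw [EuclideanSpace.inner_single_left]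
    simp
  rw [e1, e2]
  ring

lemma normal_derivative_ne_zero :
    fderiv ℝ dipole pole (EuclideanSpace.single 2 1) ≠ 0 := by
  have h := norm_sq_fderiv_dipole pole_ne_zero (EuclideanSpace.single 2 1)
  have e1 : inner ℝ pole (EuclideanSpace.single (2 : Fin 3) (1 : ℝ)) = (100 / 11) := by
    rw [EuclideanSpace.inner_single_right]
    simp [pole_two]
  rw [e1, norm_pole, pole_two] at h
  intro h0
  rw [h0] at h
  simp at h
  norm_num at h

end Pool.Agent.W_MP_871f9b_an
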