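import Pool.Agent.W_MP_871f9b_an.Polar

/-!
The integral of the Lagrangian density of the dipole field over the exterior of the obstacle.
-/

open MeasureTheory Measure Set

namespace Pool.Agent.W_MP_871f9b_an

/-- the Lagrangian density, explicitly -/
noncomputable def dens (x : E3) : ℝ :=
  (2 * (x 2) ^ 2 - ‖x‖ ^ 2) / ‖x‖ ^ 6 - (‖x‖ ^ 2 + 3 * (x 2) ^ 2) / ‖x‖ ^ 8

/-- the density, cut off to the exterior domain -/
noncomputable def Gd : E3 → ℝ := obstacleᶜ.indicator dens

lemma measurable_coord (i : Fin 3) : Measurable fun x : E3 => x i := (continuous_coord i).measurable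

lemma measurable_dens : Measurable dens := by
  unfold dens
  have h2 := measurable_coord 2
  have hn : Measurable fun x : E3 => ‖x‖ := measurable_norm
  exact ((((h2.pow_const 2).const_mul 2).sub (hn.pow_const 2)).div (hn.pow_const 6)).sub
    (((hn.pow_const 2).add ((h2.pow_const 2).const_mul 3)).div (hn.pow_const 8))

lemma measurableSet_compl_obstacle : MeasurableSet (obstacleᶜ : Set E3) :=
  isClosed_obstacle.measurableSet.compl

lemma measurable_Gd : Measurable Gd := measurable_dens.indicator measurableSet_compl_obstacle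

lemma nine_le_norm {x : E3} (hx : x ∈ obstacleᶜ) : 9 ≤ ‖x‖ := by
  by_contra h
  push Not at h
  apply hx
  apply ball_subset_obstacle
  rw [mem_ball_zero_iff]
  exact h

lemma abs_dens_le {x : E3} (hx : 9 ≤ ‖x‖) : |dens x| ≤ 4 * ‖x‖ ^ (-4 : ℝ) := by
  have hpos : 0 < ‖x‖ := by linarith
  have hc := coord_sq_le x 2
  have e : ‖x‖ ^ (-4 : ℝ) = (‖x‖ ^ 4)⁻¹ := by
    rw [Real.rpow_neg hpos.le]
    norm_cast
  rw [e]
  unfold dens
  have h1 : |(2 * (x 2) ^ 2 - ‖x‖ ^ 2) / ‖x‖ ^ 6| ≤ (‖x‖ ^ 4)⁻¹ := by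
    rw [abs_div, abs_of_pos (by positivity : 0 < ‖x‖ ^ 6), div_le_iff₀ (by positivity)]
    have : (‖x‖ ^ 4)⁻¹ * ‖x‖ ^ 6 = ‖x‖ ^ 2 := by field_simp
    rw [this, abs_le]
    constructor <;> nlinarith [sq_nonneg (x 2)]
  have h2 : |(‖x‖ ^ 2 + 3 * (x 2) ^ 2) / ‖x‖ ^ 8| ≤ (‖x‖ ^ 4)⁻¹ := by
    rw [abs_div, abs_of_pos (by positivity : 0 < ‖x‖ ^ 8), div_le_iff₀ (by positivity)]
    have : (‖x‖ ^ 4)⁻¹ * ‖x‖ ^ 8 = ‖x‖ ^ 4 := by field_simp
    rw [this, abs_of_nonneg (by positivity)]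
    have h81 : 81 ≤ ‖x‖ ^ 2 := by nlinarith
    nlinarith [sq_nonneg (x 2)]
  calc |(2 * (x 2) ^ 2 - ‖x‖ ^ 2) / ‖x‖ ^ 6 - (‖x‖ ^ 2 + 3 * (x 2) ^ 2) / ‖x‖ ^ 8|
      ≤ |(2 * (x 2) ^ 2 - ‖x‖ ^ 2) / ‖x‖ ^ 6| + |(‖x‖ ^ 2 + 3 * (x 2) ^ 2) / ‖x‖ ^ 8| :=
        abs_sub _ _
    _ ≤ (‖x‖ ^ 4)⁻¹ + (‖x‖ ^ 4)⁻¹ := add_le_add h1 h2
    _ ≤ 4 * (‖x‖ ^ 4)⁻¹ := by
      have : 0 < (‖x‖ ^ 4)⁻¹ := by positivity
      linarith

lemma integrable_Gd : Integrable Gd := by
  have hf : Integrable (fun x : E3 => (Ici (9 : ℝ)).indicator (fun r => 4 * r ^ (-4 : ℝ)) ‖x‖) := by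
    rw [integrable_fun_norm_addHaar, finrank_E3]
    have h1 : IntegrableOn (fun r : ℝ => r ^ (-2 : ℝ)) (Ioi 1) :=
      integrableOn_Ioi_rpow_of_lt (by norm_num) (by norm_num)
    have h2 : IntegrableOn (fun r : ℝ => 4 * r ^ (-2 : ℝ)) (Ici 9) :=
      (h1.mono_set (fun r hr => lt_of_lt_of_le (by norm_num) (mem_Ici.1 hr) : Ici (9 : ℝ) ⊆ Ioi 1)).const_mul 4
    have h3 : Integrable ((Ici (9 : ℝ)).indicator (fun r : ℝ => 4 * r ^ (-2 : ℝ))) :=
      h2.integrable_indicator measurableSet_Ici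
    refine (h3.integrableOn (s := Ioi 0)).congr_fun ?_ measurableSet_Ioi
    intro r hr
    have hr0 : (0 : ℝ) < r := hr
    by_cases h : r ∈ Ici (9 : ℝ)
    · simp only [indicator_of_mem h, smul_eq_mul]
      have : r ^ (-2 : ℝ) = r ^ (2 : ℕ) * r ^ (-4 : ℝ) := by
        rw [← Real.rpow_natCast, ← Real.rpow_add hr0]
        norm_num
      rw [this]; ring
    · simp only [indicator_of_notMem h, smul_zero]
  refine hf.mono measurable_Gd.aestronglyMeasurable ?_
  filter_upwards with x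
  unfold Gd
  by_cases hx : x ∈ obstacleᶜ
  · rw [indicator_of_mem hx]
    have h9 := nine_le_norm hx
    rw [indicator_of_mem (show ‖x‖ ∈ Ici (9 : ℝ) from h9), Real.norm_eq_abs, Real.norm_eq_abs]
    exact le_trans (abs_dens_le h9) (le_abs_self _)
  · rw [indicator_of_notMem hx, norm_zero]
    exact norm_nonneg _

/-- the radial function bounding the obstacle -/
noncomputable def rho (t : ℝ) : ℝ := 100 / (1 + 10 * t ^ 2)

lemma rho_pos (t : ℝ) : 0 < rho t := by unfold rho; positivity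

lemma smul_mem_compl_iff (ω : S2) {r : ℝ} (hr : 0 < r) :
    r • (ω : E3) ∈ obstacleᶜ ↔ rho ((ω : E3) 2) < r := by
  have h1 : ‖(ω : E3)‖ = 1 := norm_eq_of_mem_sphere ω
  rw [mem_compl_iff, mem_obstacle, norm_smul, h1, mul_one, Real.norm_eq_abs, abs_of_pos hr,
    PiLp.smul_apply, smul_eq_mul, not_le]
  unfold rho
  rw [div_lt_iff₀ (by positivity)]
  constructor
  · intro h
    have : r * 100 < r * (r * (1 + 10 * (ω : E3) 2 ^ 2)) := by nlinarith
    exact lt_of_mul_lt_mul_left this hr.le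
  · intro h
    have : r * 100 < r * (r * (1 + 10 * (ω : E3) 2 ^ 2)) := mul_lt_mul_of_pos_left h hr
    nlinarith

lemma dens_smul (ω : S2) {r : ℝ} (hr : 0 < r) :
    r ^ 2 * dens (r • (ω : E3)) = (2 * (ω : E3) 2 ^ 2 - 1) * r ^ (-2 : ℝ)
      - (1 + 3 * (ω : E3) 2 ^ 2) * r ^ (-4 : ℝ) := by
  have h1 : ‖(ω : E3)‖ = 1 := norm_eq_of_mem_sphere ω
  have e2 : r ^ (-2 : ℝ) = (r ^ 2)⁻¹ := by
    rw [Real.rpow_neg hr.le]; norm_cast
  have e4 : r ^ (-4 : ℝ) = (r ^ 4)⁻¹ := by
    rw [Real.rpow_neg hr.le]; norm_cast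
  unfold dens
  rw [norm_smul, h1, mul_one, Real.norm_eq_abs, abs_of_pos hr, PiLp.smul_apply, smul_eq_mul,
    e2, e4]
  field_simp

lemma inner_integral (ω : S2) :
    ∫ r in Ioi (0 : ℝ), r ^ 2 * Gd (r • (ω : E3)) =
      (2 * (ω : E3) 2 ^ 2 - 1) * (1 + 10 * (ω : E3) 2 ^ 2) / 100
        - (1 + 3 * (ω : E3) 2 ^ 2) * (1 + 10 * (ω : E3) 2 ^ 2) ^ 3 / 3000000 := by
  set t := (ω : E3) 2 with ht
  have e1 : ∫ r in Ioi (0 : ℝ), r ^ 2 * Gd (r • (ω : E3)) =
      ∫ r in Ioi (0 : ℝ), (Ioi (rho t)).indicator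
        (fun r => (2 * t ^ 2 - 1) * r ^ (-2 : ℝ) - (1 + 3 * t ^ 2) * r ^ (-4 : ℝ)) r := by
    apply setIntegral_congr_fun measurableSet_Ioi
    intro r hr
    have hr0 : (0 : ℝ) < r := hr
    unfold Gd
    dsimp only
    by_cases h : rho t < r
    · rw [indicator_of_mem ((smul_mem_compl_iff ω hr0).2 h), indicator_of_mem (mem_Ioi.2 h),
        dens_smul ω hr0]
    · rw [indicator_of_notMem (fun h' => h ((smul_mem_compl_iff ω hr0).1 h')),
        indicator_of_notMem (fun h' => h (mem_Ioi.1 h')), mul_zero]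
  rw [e1, setIntegral_indicator measurableSet_Ioi]
  have e2 : Ioi (0 : ℝ) ∩ Ioi (rho t) = Ioi (rho t) :=
    inter_eq_right.2 (Ioi_subset_Ioi (rho_pos t).le)
  rw [e2, integral_sub, integral_const_mul, integral_const_mul,
    integral_Ioi_rpow_of_lt (by norm_num) (rho_pos t),
    integral_Ioi_rpow_of_lt (by norm_num) (rho_pos t)]
  · have hr := rho_pos t
    have e3 : rho t ^ ((-2 : ℝ) + 1) = (rho t)⁻¹ := by
      rw [show ((-2 : ℝ) + 1) = -1 by norm_num, Real.rpow_neg_one]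
    have e4 : rho t ^ ((-4 : ℝ) + 1) = (rho t ^ 3)⁻¹ := by
      rw [show ((-4 : ℝ) + 1) = -3 by norm_num, Real.rpow_neg hr.le]; norm_cast
    rw [e3, e4]
    unfold rho
    have : (1 + 10 * t ^ 2) ≠ 0 := by positivity
    field_simp
    ring
  · exact (integrableOn_Ioi_rpow_of_lt (by norm_num) (rho_pos t)).const_mul _
  · exact (integrableOn_Ioi_rpow_of_lt (by norm_num) (rho_pos t)).const_mul _

lemma continuous_height : Continuous fun ω : S2 => (ω : E3) 2 :=
  (continuous_coord 2).comp continuous_subtype_val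

lemma integrable_of_continuous {g : S2 → ℝ} (hg : Continuous g) : Integrable g sigma := by
  have hc : IsCompact (univ : Set S2) := isCompact_univ
  have := hg.continuousOn.integrableOn_compact (μ := sigma) hc
  rwa [integrableOn_univ] at this

lemma integral_Gd_pos : 0 < ∫ x, Gd x := by
  rw [polar integrable_Gd]
  simp only [inner_integral]
  -- lower bound for the integrand
  have hcont := continuous_height
  have hlow : ∀ ω : S2, (1 / 5) * (ω : E3) 2 ^ 4 - (2 / 25) * (ω : E3) 2 ^ 2 - (11775 / 1000000)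
      ≤ (2 * (ω : E3) 2 ^ 2 - 1) * (1 + 10 * (ω : E3) 2 ^ 2) / 100
        - (1 + 3 * (ω : E3) 2 ^ 2) * (1 + 10 * (ω : E3) 2 ^ 2) ^ 3 / 3000000 := by
    intro ω
    have h1 : ‖(ω : E3)‖ = 1 := norm_eq_of_mem_sphere ω
    have h2 := coord_sq_le (ω : E3) 2
    rw [h1] at h2
    set s := (ω : E3) 2 ^ 2 with hs
    have hs0 : 0 ≤ s := sq_nonneg _
    have hs1 : s ≤ 1 := by linarith
    have e4 : (ω : E3) 2 ^ 4 = s ^ 2 := by rw [hs]; ring
    rw [e4]
    have h3 : (1 + 3 * s) * (1 + 10 * s) ^ 3 ≤ 4 * 11 ^ 3 := by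
      apply mul_le_mul (by linarith) _ (by positivity) (by norm_num)
      exact pow_le_pow_left₀ (by positivity) (by linarith) 3
    nlinarith
  have hint : ∫ ω : S2, ((1 / 5) * (ω : E3) 2 ^ 4 - (2 / 25) * (ω : E3) 2 ^ 2
      - (11775 / 1000000 : ℝ)) ∂sigma = mom 0 * (1 / 25 - 2 / 75 - 11775 / 1000000) := by
    rw [integral_sub, integral_sub, integral_const_mul, integral_const_mul]
    · have e4 : ∫ ω : S2, (ω : E3) 2 ^ 4 ∂sigma = mom 4 := rfl
      have e2 : ∫ ω : S2, (ω : E3) 2 ^ 2 ∂sigma = mom 2 := rfl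
      have e0 : ∫ ω : S2, (11775 / 1000000 : ℝ) ∂sigma = mom 0 * (11775 / 1000000) := by
        unfold mom
        simp
      rw [e4, e2, e0, mom_four, mom_two]
      ring
    · exact (integrable_of_continuous (hcont.pow 4)).const_mul _
    · exact (integrable_of_continuous (hcont.pow 2)).const_mul _
    · exact integrable_of_continuous
        ((continuous_const.mul (hcont.pow 4)).sub (continuous_const.mul (hcont.pow 2)))
    · exact integrable_of_continuous continuous_const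
  have hpos : 0 < mom 0 * (1 / 25 - 2 / 75 - 11775 / 1000000) :=
    mul_pos mom_zero_pos (by norm_num)
  refine lt_of_lt_of_le hpos ?_
  rw [← hint]
  apply integral_mono
  · exact integrable_of_continuous
      (((continuous_const.mul (hcont.pow 4)).sub (continuous_const.mul (hcont.pow 2))).sub
        continuous_const)
  · apply integrable_of_continuous
    exact ((((continuous_const.mul (hcont.pow 2)).sub continuous_const).mul
      (continuous_const.add (continuous_const.mul (hcont.pow 2)))).div_const _).sub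
      (((continuous_const.add (continuous_const.mul (hcont.pow 2))).mul
        ((continuous_const.add (continuous_const.mul (hcont.pow 2))).pow 3)).div_const _)
  · intro ω
    exact hlow ω

/-- On the exterior domain, the Lagrangian density of the dipole field is `dens`. -/
lemma density_eq {x : E3} (hx : x ∈ obstacleᶜ) : ‖dipole x‖ ^ 2 - gradSq dipole x = dens x := by
  have : x ≠ 0 := ne_zero_of_mem_closure_compl (subset_closure hx)
  rw [density_dipole this]
  rfl

lemma integrableOn_density :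
    IntegrableOn (fun x => ‖dipole x‖ ^ 2 - gradSq dipole x) obstacleᶜ := by
  have h : IntegrableOn dens obstacleᶜ :=
    (integrable_indicator_iff measurableSet_compl_obstacle).1 integrable_Gd
  exact h.congr_fun (fun x hx => (density_eq hx).symm) measurableSet_compl_obstacle

lemma integral_density_pos :
    0 < ∫ x in obstacleᶜ, (‖dipole x‖ ^ 2 - gradSq dipole x) := by
  rw [setIntegral_congr_fun measurableSet_compl_obstacle (fun x hx => density_eq hx),
    ← integral_indicator measurableSet_compl_obstacle]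
  exact integral_Gd_pos

end Pool.Agent.W_MP_871f9b_an
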