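import Pool.Agent.W_MP_871f9b_an.Geometry

/-!
Polar coordinates and second and fourth moments of the uniform measure on the sphere.
-/

open MeasureTheory Measure Set

namespace Pool.Agent.W_MP_871f9b_an

/-- the unit sphere -/
abbrev S2 := Metric.sphere (0 : E3) 1

/-- the surface measure -/
noncomputable def sigma : Measure S2 := (volume : Measure E3).toSphere

instance : IsFiniteMeasure sigma := by unfold sigma; infer_instance

lemma finrank_E3 : Module.finrank ℝ E3 = 3 := by simp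

lemma integral_volumeIoiPow (g : ℝ → ℝ) :
    ∫ r : Ioi (0 : ℝ), g r ∂(volumeIoiPow 2) = ∫ r in Ioi (0 : ℝ), r ^ 2 * g r := by
  simp only [volumeIoiPow, ENNReal.ofReal]
  rw [integral_withDensity_eq_integral_smul,
    integral_subtype_comap measurableSet_Ioi fun a : ℝ => Real.toNNReal (a ^ 2) • g a,
    setIntegral_congr_fun measurableSet_Ioi fun x hx => ?_]
  · rw [NNReal.smul_def, Real.coe_toNNReal _ (pow_nonneg hx.out.le _), smul_eq_mul]
  · exact (measurable_subtype_coe.pow_const _).real_toNNReal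

lemma polar_prod (G : E3 → ℝ) :
    ∫ x, G x = ∫ p : S2 × Ioi (0 : ℝ), G ((p.2 : ℝ) • (p.1 : E3)) ∂(sigma.prod (volumeIoiPow 2)) := by
  have h := (volume : Measure E3).measurePreserving_homeomorphUnitSphereProd.integral_comp
      (Homeomorph.measurableEmbedding _)
      (fun p : S2 × Ioi (0 : ℝ) => G ((p.2 : ℝ) • (p.1 : E3)))
  rw [finrank_E3] at h
  have e : (3 - 1 : ℕ) = 2 := rfl
  rw [e] at h
  unfold sigma
  rw [← h]
  have e2 : ∀ x : ({0}ᶜ : Set E3), G (((homeomorphUnitSphereProd E3 x).2 : ℝ) •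
      ((homeomorphUnitSphereProd E3 x).1 : E3)) = G x := by
    intro x
    congr 1
    have := congrArg Subtype.val ((homeomorphUnitSphereProd E3).symm_apply_apply x)
    rw [homeomorphUnitSphereProd_symm_apply_coe] at this
    exact this
  simp only [e2]
  rw [integral_subtype_comap (measurableSet_singleton (0 : E3)).compl G, restrict_compl_singleton]

lemma integrable_polar {G : E3 → ℝ} (hG : Integrable G) :
    Integrable (fun p : S2 × Ioi (0 : ℝ) => G ((p.2 : ℝ) • (p.1 : E3)))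
      (sigma.prod (volumeIoiPow 2)) := by
  have h := (volume : Measure E3).measurePreserving_homeomorphUnitSphereProd.integrable_comp_emb
      (g := fun p : S2 × Ioi (0 : ℝ) => G ((p.2 : ℝ) • (p.1 : E3)))
      (Homeomorph.measurableEmbedding _)
  rw [finrank_E3] at h
  have e : (3 - 1 : ℕ) = 2 := rfl
  rw [e] at h
  unfold sigma
  rw [← h]
  have e2 : (fun p : S2 × Ioi (0 : ℝ) => G ((p.2 : ℝ) • (p.1 : E3))) ∘ (homeomorphUnitSphereProd E3)
      = fun x : ({0}ᶜ : Set E3) => G x := by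
    funext x
    simp only [Function.comp_apply]
    congr 1
    have := congrArg Subtype.val ((homeomorphUnitSphereProd E3).symm_apply_apply x)
    rw [homeomorphUnitSphereProd_symm_apply_coe] at this
    exact this
  rw [e2]
  have h3 : IntegrableOn G ({0}ᶜ : Set E3) := hG.integrableOn
  rw [integrableOn_iff_comap_subtypeVal (measurableSet_singleton (0 : E3)).compl] at h3
  exact h3

lemma polar {G : E3 → ℝ} (hG : Integrable G) :
    ∫ x, G x = ∫ ω : S2, (∫ r in Ioi (0 : ℝ), r ^ 2 * G (r • (ω : E3))) ∂sigma := by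
  rw [polar_prod, integral_prod _ (integrable_polar hG)]
  congr 1
  funext ω
  exact integral_volumeIoiPow (fun r => G (r • (ω : E3)))

/-- moments of the height function on the sphere -/
noncomputable def mom (k : ℕ) : ℝ := ∫ ω : S2, ((ω : E3) 2) ^ k ∂sigma

lemma gauss_polar (k : ℕ) :
    ∫ x : E3, (x 2) ^ k * Real.exp (-‖x‖ ^ 2) =
      mom k * ∫ r in Ioi (0 : ℝ), r ^ 2 * (r ^ k * Real.exp (- r ^ 2)) := by
  rw [polar_prod, ← integral_volumeIoiPow (fun r => r ^ k * Real.exp (- r ^ 2)), mom,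
    ← integral_prod_mul]
  congr 1
  funext p
  have h1 : ‖(p.1 : E3)‖ = 1 := norm_eq_of_mem_sphere p.1
  have h2 : ‖(p.2 : ℝ) • (p.1 : E3)‖ = (p.2 : ℝ) := by
    rw [norm_smul, h1, mul_one, Real.norm_eq_abs, abs_of_pos p.2.2]
  rw [h2, PiLp.smul_apply, smul_eq_mul]
  ring

/-- one-dimensional Gaussian moments -/
noncomputable def gm (k : ℕ) : ℝ := ∫ x : ℝ, x ^ k * Real.exp (- x ^ 2)

lemma gauss_prod (k : ℕ) :
    ∫ x : E3, (x 2) ^ k * Real.exp (-‖x‖ ^ 2) = gm k * gm 0 * gm 0 := by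
  rw [← (PiLp.volume_preserving_toLp (Fin 3)).integral_comp
    (MeasurableEquiv.toLp 2 _).measurableEmbedding]
  have h := integral_fintype_prod_volume_eq_prod (ι := Fin 3)
    (f := fun (i : Fin 3) (v : ℝ) => (if i = 2 then v ^ k else 1) * Real.exp (- v ^ 2))
  rw [Fin.prod_univ_three] at h
  have e1 : (∫ x : ℝ, (if (2 : Fin 3) = 2 then x ^ k else 1) * Real.exp (- x ^ 2)) = gm k := by
    simp [gm]
  have e2 : (∫ x : ℝ, (if (0 : Fin 3) = 2 then x ^ k else 1) * Real.exp (- x ^ 2)) = gm 0 := by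
    simp [gm]
  have e3 : (∫ x : ℝ, (if (1 : Fin 3) = 2 then x ^ k else 1) * Real.exp (- x ^ 2)) = gm 0 := by
    simp [gm]
  rw [e1, e2, e3] at h
  rw [show gm k * gm 0 * gm 0 = gm 0 * gm 0 * gm k by ring, ← h]
  congr 1
  funext x
  have hn := EuclideanSpace.real_norm_sq_eq (WithLp.toLp 2 x)
  rw [hn, Fin.sum_univ_three, Fin.prod_univ_three]
  simp only [neg_add, Real.exp_add]
  simp
  ring

lemma half_gauss (k : ℕ) :
    ∫ r in Ioi (0 : ℝ), r ^ k * Real.exp (- r ^ 2) = 1 / 2 * Real.Gamma ((k + 1) / 2) := by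
  have h := integral_rpow_mul_exp_neg_rpow (p := 2) (q := k) (by norm_num) (by
    have : (0 : ℝ) ≤ k := Nat.cast_nonneg k
    linarith)
  rw [← h]
  apply setIntegral_congr_fun measurableSet_Ioi
  intro x hx
  simp only [Real.rpow_natCast, Real.rpow_two]

lemma gm_eq (k : ℕ) (hk : Even k) : gm k = Real.Gamma ((k + 1) / 2) := by
  unfold gm
  have h := integral_comp_abs (f := fun x : ℝ => x ^ k * Real.exp (- x ^ 2))
  simp only [hk.pow_abs, sq_abs] at h
  rw [h, half_gauss]
  ring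

lemma mom_rel (k : ℕ) (hk : Even k) :
    mom k * (1 / 2 * Real.Gamma ((k + 3) / 2)) =
      Real.Gamma ((k + 1) / 2) * Real.Gamma (1 / 2) * Real.Gamma (1 / 2) := by
  have h := gauss_polar k
  rw [gauss_prod, gm_eq k hk, gm_eq 0 (by norm_num)] at h
  have e : (∫ r in Ioi (0 : ℝ), r ^ 2 * (r ^ k * Real.exp (- r ^ 2))) =
      1 / 2 * Real.Gamma ((k + 3) / 2) := by
    have h2 := half_gauss (k + 2)
    rw [show (((k + 2 : ℕ) : ℝ) + 1) / 2 = (k + 3) / 2 by push_cast; ring] at h2
    rw [← h2]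
    congr 1
    funext r
    ring
  rw [e] at h
  rw [← h]
  norm_num

lemma mom_two : mom 2 = mom 0 / 3 := by
  have h0 := mom_rel 0 (by norm_num)
  have h2 := mom_rel 2 (by norm_num)
  have g1 : Real.Gamma (3 / 2) = 1 / 2 * Real.Gamma (1 / 2) := by
    rw [show (3 / 2 : ℝ) = 1 / 2 + 1 by norm_num, Real.Gamma_add_one (by norm_num)]
  have g2 : Real.Gamma (5 / 2) = 3 / 2 * (1 / 2 * Real.Gamma (1 / 2)) := by
    rw [show (5 / 2 : ℝ) = 3 / 2 + 1 by norm_num, Real.Gamma_add_one (by norm_num), g1]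
  norm_num at h0 h2
  rw [g1] at h0 h2
  rw [g2] at h2
  have hpos : 0 < Real.Gamma (1 / 2) := Real.Gamma_pos_of_pos (by norm_num)
  set g := Real.Gamma (1 / 2) with hg
  have e0 : mom 0 = 4 * g ^ 2 := by
    have : g * (mom 0 - 4 * g ^ 2) = 0 := by nlinarith
    rcases mul_eq_zero.1 this with h | h
    · exact absurd h hpos.ne'
    · linarith
  have e2 : mom 2 = 4 / 3 * g ^ 2 := by
    have : g * (mom 2 - 4 / 3 * g ^ 2) = 0 := by nlinarith
    rcases mul_eq_zero.1 this with h | h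
    · exact absurd h hpos.ne'
    · linarith
  rw [e0, e2]; ring

lemma mom_four : mom 4 = mom 0 / 5 := by
  have h0 := mom_rel 0 (by norm_num)
  have h4 := mom_rel 4 (by decide)
  have g1 : Real.Gamma (3 / 2) = 1 / 2 * Real.Gamma (1 / 2) := by
    rw [show (3 / 2 : ℝ) = 1 / 2 + 1 by norm_num, Real.Gamma_add_one (by norm_num)]
  have g2 : Real.Gamma (5 / 2) = 3 / 2 * (1 / 2 * Real.Gamma (1 / 2)) := by
    rw [show (5 / 2 : ℝ) = 3 / 2 + 1 by norm_num, Real.Gamma_add_one (by norm_num), g1]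
  have g3 : Real.Gamma (7 / 2) = 5 / 2 * (3 / 2 * (1 / 2 * Real.Gamma (1 / 2))) := by
    rw [show (7 / 2 : ℝ) = 5 / 2 + 1 by norm_num, Real.Gamma_add_one (by norm_num), g2]
  norm_num at h0 h4
  rw [g1] at h0
  rw [g2, g3] at h4
  have hpos : 0 < Real.Gamma (1 / 2) := Real.Gamma_pos_of_pos (by norm_num)
  set g := Real.Gamma (1 / 2) with hg
  have e0 : mom 0 = 4 * g ^ 2 := by
    have : g * (mom 0 - 4 * g ^ 2) = 0 := by nlinarith
    rcases mul_eq_zero.1 this with h | h
    · exact absurd h hpos.ne'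
    · linarith
  have e4 : mom 4 = 4 / 5 * g ^ 2 := by
    have : g * (mom 4 - 4 / 5 * g ^ 2) = 0 := by nlinarith
    rcases mul_eq_zero.1 this with h | h
    · exact absurd h hpos.ne'
    · linarith
  rw [e0, e4]; ring

lemma mom_zero_pos : 0 < mom 0 := by
  have : mom 0 = sigma.real univ := by
    unfold mom
    simp
  rw [this]
  unfold sigma
  rw [toSphere_real_apply_univ]
  have h1 : 0 < (volume : Measure E3).real (Metric.ball 0 1) :=
    ENNReal.toReal_pos (Metric.measure_ball_pos volume 0 (by norm_num)).ne' measure_ball_lt_top.ne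
  rw [finrank_E3]
  positivity

end Pool.Agent.W_MP_871f9b_an
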